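import Pool.Agent.X198.ST.Main

namespace Pool.Agent.X198.ST

open Set Topology Filter Cardinal

universe u

/-- Staeckel-compact spaces -/
def StC (X : Type u) [TopologicalSpace X] : Prop :=
  T2Space X ∧ ∃ _ : LinearOrder X, ∀ F : Set X, IsClosed F → F.Nonempty →
    (∃ a, IsLeast F a) ∧ (∃ a, IsGreatest F a)

theorem cc_of_stc {X : Type u} [TopologicalSpace X] (h : StC X) : CC X := by
  intro z
  by_contra hcon
  push Not at hcon
  obtain ⟨h2, lo, hF⟩ := h
  have h1 : ∀ x, ∃ U ∈ 𝓝 x, {n | z n ∈ U}.Finite := by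
    intro x
    have h3 := hcon x
    rw [mapClusterPt_iff_frequently] at h3
    by_contra h4
    push Not at h4
    exact h3 (fun s hs => Nat.frequently_atTop_iff_infinite.mpr (h4 s hs))
  have hcl : ∀ S ⊆ range z, IsClosed S := by
    intro S hS
    rw [← isOpen_compl_iff, isOpen_iff_mem_nhds]
    intro x hx
    obtain ⟨U, hU, hfin⟩ := h1 x
    have h5 : (S ∩ U).Finite := by
      refine (hfin.image z).subset ?_
      rintro y ⟨hy1, hy2⟩
      obtain ⟨n, rfl⟩ := hS hy1
      exact ⟨n, hy2, rfl⟩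
    have h6 : (S ∩ U)ᶜ ∈ 𝓝 x := h5.isClosed.isOpen_compl.mem_nhds (fun h => hx h.1)
    refine Filter.mem_of_superset (Filter.inter_mem hU h6) ?_
    rintro y ⟨hy1, hy2⟩ hy3
    exact hy2 ⟨hy3, hy1⟩
  have hinf : (range z).Infinite := by
    intro hfin
    have h3 : (z ⁻¹' range z).Finite := by
      refine hfin.preimage' (fun b _ => ?_)
      obtain ⟨U, hU, hfin⟩ := h1 b
      refine hfin.subset (fun n hn => ?_)
      have : z n = b := hn
      show z n ∈ U
      rw [this]
      exact mem_of_mem_nhds hU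
    rw [Set.preimage_range] at h3
    exact Set.infinite_univ h3
  let G : Set X := {x | x ∈ range z ∧ {y | y ∈ range z ∧ y ≤ x}.Finite}
  have hnext : ∀ P : Set X, P.Finite → (∀ x ∈ range z, x ∉ P → ∀ p ∈ P, p < x) →
      ∃ g ∈ G, g ∉ P := by
    intro P hP hPlow
    have h3 : (range z \ P).Infinite := hinf.sdiff hP
    obtain ⟨⟨g, hg⟩, _⟩ := hF (range z \ P) (hcl _ Set.sdiff_subset) h3.nonempty
    refine ⟨g, ⟨hg.1.1, ?_⟩, hg.1.2⟩
    refine (hP.union (Set.finite_singleton g)).subset ?_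
    rintro y ⟨hy1, hy2⟩
    by_cases hyP : y ∈ P
    · exact Or.inl hyP
    · exact Or.inr (le_antisymm hy2 (hg.2 ⟨hy1, hyP⟩))
  have hGne : G.Nonempty := by
    obtain ⟨g, hg, _⟩ := hnext ∅ Set.finite_empty (fun _ _ _ p hp => absurd hp (Set.notMem_empty p))
    exact ⟨g, hg⟩
  obtain ⟨_, ⟨m, hm⟩⟩ := hF G (hcl G (fun x hx => hx.1)) hGne
  obtain ⟨g, hg, hgP⟩ := hnext {y | y ∈ range z ∧ y ≤ m} hm.1.2 (by
    intro x hx hxP p hp
    have : ¬ x ≤ m := fun h => hxP ⟨hx, h⟩
    exact hp.2.trans_lt (not_le.mp this))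
  exact hgP ⟨hg.1, hm.2 hg⟩

theorem cc_image {X Y : Type u} [TopologicalSpace X] [TopologicalSpace Y] (h : CC X)
    {f : X → Y} (hf : Continuous f) (hs : Function.Surjective f) : CC Y := by
  intro z
  choose w hw using fun n => hs (z n)
  obtain ⟨x, hx⟩ := h w
  refine ⟨f x, ?_⟩
  have h1 := MapClusterPt.continuousAt_comp (f := f) hf.continuousAt hx
  have h2 : f ∘ w = z := funext hw
  rwa [h2] at h1

theorem stc_homeo {X Y : Type u} [TopologicalSpace X] [TopologicalSpace Y] (h : StC X)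
    (e : X ≃ₜ Y) : StC Y := by
  obtain ⟨h2, lo, hF⟩ := h
  refine ⟨e.t2Space, LinearOrder.lift' e.symm e.symm.injective, fun F hc hne => ?_⟩
  obtain ⟨⟨a, ha⟩, ⟨b, hb⟩⟩ := hF (e ⁻¹' F) (hc.preimage e.continuous)
    (by obtain ⟨y, hy⟩ := hne; exact ⟨e.symm y, by simpa using hy⟩)
  refine ⟨⟨e a, ha.1, fun c hc => ?_⟩, ⟨e b, hb.1, fun c hc => ?_⟩⟩
  · show e.symm (e a) ≤ e.symm c
    rw [e.symm_apply_apply]
    exact ha.2 (show e (e.symm c) ∈ F by simpa using hc)
  · show e.symm c ≤ e.symm (e b)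
    rw [e.symm_apply_apply]
    exact hb.2 (show e (e.symm c) ∈ F by simpa using hc)

theorem exists_stc (Y : Type u) [TopologicalSpace Y] (h2 : T2Space Y) (hY : CC Y)
    (hc : Cardinal.mk Y ≤ Cardinal.continuum) :
    ∃ (X : Type u) (_ : TopologicalSpace X) (f : X → Y), StC X ∧ Continuous f ∧
      Function.Surjective f := by
  by_cases hne : Nonempty Y
  · obtain ⟨X, _, f, h3, h4, h5, h6⟩ := main Y hY hc
    exact ⟨X, _, f, ⟨h3, h4⟩, h5, h6⟩
  · have hem : IsEmpty Y := not_nonempty_iff.mp hne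
    refine ⟨Y, inferInstance, id, ⟨h2, LinearOrder.lift' (fun y : Y => (isEmptyElim y : ℕ))
      (fun y => isEmptyElim y), fun F _ hF => ?_⟩, continuous_id, Function.surjective_id⟩
    obtain ⟨y, _⟩ := hF
    exact isEmptyElim y

/-- The characterization. -/
theorem char (Y : Type u) [TopologicalSpace Y] (h2 : T2Space Y)
    (hc : Cardinal.mk Y ≤ Cardinal.continuum) :
    (∃ (X : Type u) (_ : TopologicalSpace X) (f : X → Y), StC X ∧ Continuous f ∧
      Function.Surjective f) ↔ CC Y := by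
  constructor
  · rintro ⟨X, _, f, h3, h4, h5⟩
    exact cc_image (cc_of_stc h3) h4 h5
  · intro hY
    exact exists_stc Y h2 hY hc

/-- Q1 for images of cardinality at most the continuum -/
theorem equiv_form :
    (∀ (X Y : Type u) [TopologicalSpace X] [TopologicalSpace Y] (f : X → Y), StC X →
      T2Space Y → Continuous f → Cardinal.mk (range f) ≤ Cardinal.continuum → StC (range f)) ↔
    (∀ (Y : Type u) [TopologicalSpace Y], T2Space Y → Cardinal.mk Y ≤ Cardinal.continuum →
      CC Y → StC Y) := by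
  constructor
  · intro h Y _ h2 hc hY
    obtain ⟨X, _, f, h3, h4, h5⟩ := exists_stc Y h2 hY hc
    have h6 : Cardinal.mk (range f) ≤ Cardinal.continuum := by
      rw [h5.range_eq, Cardinal.mk_univ]; exact hc
    have h7 := h X Y f h3 h2 h4 h6
    exact stc_homeo h7 ((Homeomorph.setCongr h5.range_eq).trans (Homeomorph.Set.univ Y))
  · intro h X Y _ _ f h3 h2 h4 h5
    refine h (range f) inferInstance h5 ?_
    exact cc_image (cc_of_stc h3) (f := Set.rangeFactorization f)
      (h4.subtype_mk _) Set.rangeFactorization_surjective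

end Pool.Agent.X198.ST
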