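import Pool.Agent.X198.ST.Ult

namespace Pool.Agent.X198.ST

open Set Topology Filter Cardinal

universe u

/-- the limit of `q ∘ ψ` along `v` -/
noncomputable def limU (q : ℕ → Ultrafilter ℕ) (v : Ultrafilter ℕ) : Ultrafilter ℕ :=
  (v.map q).lim

theorem limU_tendsto (q : ℕ → Ultrafilter ℕ) (v : Ultrafilter ℕ) :
    Tendsto q v (𝓝 (limU q v)) := by
  have := (v.map q).le_nhds_lim
  exact this

theorem limU_mem {q : ℕ → Ultrafilter ℕ} {v : Ultrafilter ℕ} {E : Set ℕ}
    (h : {n | E ∈ q n} ∈ v) : E ∈ limU q v := by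
  by_contra hcon
  have h1 : Eᶜ ∈ limU q v := Ultrafilter.compl_mem_iff_notMem.mpr hcon
  have h2 := (limU_tendsto q v).eventually ((ultrafilter_isOpen_basic Eᶜ).mem_nhds h1)
  obtain ⟨n, hn1, hn2⟩ := (h2.and (show ∀ᶠ n in (v : Filter ℕ), E ∈ q n from h)).exists
  exact Ultrafilter.compl_mem_iff_notMem.mp hn1 hn2

/-- countable compactness: every sequence has a cluster point -/
def CC (Y : Type u) [TopologicalSpace Y] : Prop := ∀ z : ℕ → Y, ∃ y, MapClusterPt y atTop z

theorem exists_acc {Y : Type u} [TopologicalSpace Y] (hY : CC Y)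
    (z : ℕ → Y × Ultrafilter ℕ) (hz : Function.Injective fun n => (z n).2)
    {U : Set (Ultrafilter ℕ)} (hU : Cardinal.mk U < Cardinal.continuum) :
    ∃ w, MapClusterPt w atTop z ∧ w.2 ∉ U := by
  obtain ⟨ψ, hψ, hsep⟩ := exists_sep (fun n => (z n).2) hz
  have h1 : ∀ f : ℕ → Bool, ∃ (y : Y) (v : Ultrafilter ℕ), (v : Filter ℕ) ≤ atTop ∧
      Tendsto (fun n => (z (ψ (code f n))).1) v (𝓝 y) := by
    intro f
    obtain ⟨y, hy⟩ := hY (fun n => (z (ψ (code f n))).1)
    obtain ⟨v, hv, hvy⟩ := mapClusterPt_iff_ultrafilter.mp hy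
    exact ⟨y, v, hv, hvy⟩
  choose y v hv hy using h1
  let q : (ℕ → Bool) → ℕ → Ultrafilter ℕ := fun f n => (z (ψ (code f n))).2
  have hinj : Function.Injective (fun f : ℕ → Bool => limU (q f) (v f)) := by
    intro f g h
    by_contra hne
    obtain ⟨k, hk⟩ := Function.ne_iff.mp hne
    obtain ⟨E, hE1, hE2⟩ := hsep {m | ∃ n, k < n ∧ m = code f n}
    have h3 : E ∈ limU (q f) (v f) := limU_mem
      (Filter.mem_of_superset (hv f (Ioi_mem_atTop k)) (fun n hn => hE1 _ ⟨n, hn, rfl⟩))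
    have h4 : Eᶜ ∈ limU (q g) (v g) := by
      apply limU_mem
      refine Filter.mem_of_superset (hv g (Ioi_mem_atTop k)) (fun n hn => ?_)
      refine Ultrafilter.compl_mem_iff_notMem.mpr (hE2 _ ?_)
      rintro ⟨n', hn', e'⟩
      exact hk ((code_inj e').2 k hn).symm
    have h5 : limU (q f) (v f) = limU (q g) (v g) := h
    rw [h5] at h3
    exact Ultrafilter.compl_mem_iff_notMem.mp h4 h3
  obtain ⟨f, hf⟩ := exists_notMem_of_inj hU _ hinj
  refine ⟨(y f, limU (q f) (v f)), ?_, hf⟩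
  have hcf : Function.Injective (code f) := fun n m h => (code_inj h).1
  have hψt : Tendsto (ψ ∘ code f) (v f : Filter ℕ) atTop := by
    have := (hψ.comp hcf).tendsto_cofinite
    rw [Nat.cofinite_eq_atTop] at this
    exact this.mono_left (hv f)
  refine MapClusterPt.of_comp (φ := ψ ∘ code f) (p := (v f : Filter ℕ)) hψt
    (Tendsto.mapClusterPt ?_)
  rw [nhds_prod_eq]
  refine Tendsto.prodMk ?_ ?_
  · exact hy f
  · exact limU_tendsto (q f) (v f)

theorem exists_new {U : Set (Ultrafilter ℕ)} (hU : Cardinal.mk U < Cardinal.continuum) :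
    ∃ p : Ultrafilter ℕ, p ∉ U := by
  obtain ⟨f, hf⟩ := exists_notMem_of_inj hU _ fu_inj
  exact ⟨_, hf⟩

/-- the index set -/
abbrev I : Type := (Cardinal.continuum.{0}).ord.ToType

theorem mk_I : Cardinal.mk I = Cardinal.continuum := Cardinal.mk_ord_toType _

theorem mk_Iio (i : I) : Cardinal.mk (Iio i) < Cardinal.continuum := by
  exact Cardinal.mk_Iio_toType_ord_lt i

theorem bounded (s : ℕ → I) : ∃ i, ∀ n, s n < i := by
  by_contra hcon
  push Not at hcon
  choose f hf using hcon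
  have h1 : (⋃ n, Iic (s n)) = (univ : Set I) := by
    ext i
    simp only [mem_iUnion, mem_Iic, mem_univ, iff_true]
    exact ⟨f i, hf i⟩
  have h2 : ∀ n, Cardinal.mk (Iic (s n)) < Cardinal.continuum := by
    intro n
    have h3 : Iic (s n) = insert (s n) (Iio (s n)) := by
      ext x; simp [le_iff_eq_or_lt]
    rw [h3]
    have h4 := Cardinal.mk_insert_le (s := Iio (s n)) (a := s n)
    refine h4.trans_lt ?_
    exact Cardinal.add_lt_of_lt Cardinal.aleph0_le_continuum (mk_Iio _)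
      (Cardinal.one_lt_aleph0.trans_le Cardinal.aleph0_le_continuum)
  have h5 := Cardinal.sum_lt_prod (fun n : ℕ => Cardinal.mk (Iic (s n)))
    (fun _ : ℕ => Cardinal.continuum.{0}) h2
  have h6 : Cardinal.mk I ≤ Cardinal.sum (fun n : ℕ => Cardinal.mk (Iic (s n))) := by
    rw [← Cardinal.mk_univ, ← h1]
    exact Cardinal.mk_iUnion_le_sum_mk
  rw [mk_I] at h6
  have h7 : Cardinal.prod (fun _ : ℕ => Cardinal.continuum.{0}) = Cardinal.continuum := by
    simp [Cardinal.prod_const]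
  rw [h7] at h5
  exact absurd h6 (not_le.mpr h5)

/-- bookkeeping -/
theorem exists_book : Nonempty (I ≃ (ℕ → I) × I × Bool) := by
  rw [← Cardinal.eq]
  have h1 : Cardinal.mk (ℕ → I) = Cardinal.continuum := by
    rw [← Cardinal.power_def, mk_I, Cardinal.mk_nat, Cardinal.continuum_power_aleph0]
  rw [Cardinal.mk_prod, Cardinal.mk_prod, Cardinal.lift_id, Cardinal.lift_id, Cardinal.lift_id,
    Cardinal.lift_id, h1, mk_I]
  simp

end Pool.Agent.X198.ST
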