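import Pool.Agent.X198.ST.Acc

namespace Pool.Agent.X198.ST

open Set Topology Filter Cardinal

universe u

section rec

variable {Y : Type u} [TopologicalSpace Y]

/-- requirement at stage `i` -/
def Req (e : I ≃ (ℕ → I) × I × Bool) (g : I → Y) (i : I)
    (ih : ∀ j, j < i → Y × Ultrafilter ℕ) (w : Y × Ultrafilter ℕ) : Prop :=
  (∀ j (h : j < i), w.2 ≠ (ih j h).2) ∧
  (∀ hs : ∀ n, (e i).1 n < i, Function.Injective (fun n => (ih ((e i).1 n) (hs n)).2) →
    MapClusterPt w atTop (fun n => ih ((e i).1 n) (hs n))) ∧
  ((¬ ∃ hs : ∀ n, (e i).1 n < i,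
    Function.Injective (fun n => (ih ((e i).1 n) (hs n)).2)) → w.1 = g (e i).2.1)

theorem exists_req (hY : CC Y) (e : I ≃ (ℕ → I) × I × Bool) (g : I → Y) (i : I)
    (ih : ∀ j, j < i → Y × Ultrafilter ℕ) : ∃ w, Req e g i ih w := by
  let U : Set (Ultrafilter ℕ) := range (fun j : Iio i => (ih j.1 j.2).2)
  have hU : Cardinal.mk U < Cardinal.continuum := Cardinal.mk_range_le.trans_lt (mk_Iio i)
  by_cases h : ∃ hs : ∀ n, (e i).1 n < i,
    Function.Injective (fun n => (ih ((e i).1 n) (hs n)).2)
  · obtain ⟨hs, hinj⟩ := h
    obtain ⟨w, hw, hwU⟩ := exists_acc hY (fun n => ih ((e i).1 n) (hs n)) hinj hU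
    refine ⟨w, fun j hj he => hwU ?_, fun _ _ => hw, fun hn => absurd ⟨hs, hinj⟩ hn⟩
    rw [he]
    exact mem_range_self (f := fun j : Iio i => (ih j.1 j.2).2) ⟨j, hj⟩
  · obtain ⟨p, hp⟩ := exists_new hU
    refine ⟨(g (e i).2.1, p), fun j hj he => hp ?_, fun hs hinj => absurd ⟨hs, hinj⟩ h,
      fun _ => rfl⟩
    have he' : p = (ih j hj).2 := he
    rw [he']
    exact mem_range_self (f := fun j : Iio i => (ih j.1 j.2).2) ⟨j, hj⟩

/-- the points -/
noncomputable def pt (hY : CC Y) (e : I ≃ (ℕ → I) × I × Bool) (g : I → Y) : I → Y × Ultrafilter ℕ :=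
  WellFounded.fix (wellFounded_lt) (fun i ih => Classical.choose (exists_req hY e g i ih))

theorem pt_spec (hY : CC Y) (e : I ≃ (ℕ → I) × I × Bool) (g : I → Y) (i : I) :
    Req e g i (fun j _ => pt hY e g j) (pt hY e g i) := by
  have h1 := Classical.choose_spec (exists_req hY e g i (fun j _ => pt hY e g j))
  have h2 : pt hY e g i = Classical.choose (exists_req hY e g i (fun j _ => pt hY e g j)) :=
    WellFounded.fix_eq _ _ _
  rw [h2]
  exact h1

end rec

/-- The key construction. -/
theorem main (Y : Type u) [TopologicalSpace Y] [T2Space Y] [Nonempty Y] (hY : CC Y)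
    (hc : Cardinal.mk Y ≤ Cardinal.continuum) :
    ∃ (X : Type u) (_ : TopologicalSpace X) (f : X → Y), T2Space X ∧
      (∃ _ : LinearOrder X, ∀ F : Set X, IsClosed F → F.Nonempty →
        (∃ a, IsLeast F a) ∧ (∃ a, IsGreatest F a)) ∧
      Continuous f ∧ Function.Surjective f := by
  classical
  obtain ⟨e⟩ := exists_book
  have hemb : Nonempty (Y ↪ I) := by
    rw [← Cardinal.lift_mk_le', mk_I]
    simpa using hc
  obtain ⟨em⟩ := hemb
  let g : I → Y := Function.invFun em
  have hg : Function.Surjective g := Function.invFun_surjective em.injective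
  let x : I → Y × Ultrafilter ℕ := pt hY e g
  have hx : ∀ i, Req e g i (fun j _ => x j) (x i) := pt_spec hY e g
  have hx2 : Function.Injective (fun i => (x i).2) := by
    intro i j hij
    by_contra hne
    rcases lt_or_gt_of_ne hne with h | h
    · exact (hx j).1 i h hij.symm
    · exact (hx i).1 j h hij
  have hxinj : Function.Injective x := fun i j h => hx2 (congrArg Prod.snd h)
  let idx : range x → I := fun a => Classical.choose a.2
  have hidx : ∀ a : range x, x (idx a) = a.1 := fun a => Classical.choose_spec a.2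
  have hidx2 : ∀ i, idx ⟨x i, mem_range_self i⟩ = i := fun i => hxinj (hidx _)
  have hidxinj : Function.Injective idx := by
    intro a b h
    apply Subtype.ext
    rw [← hidx a, ← hidx b, h]
  let col : range x → Bool := fun a => (e (idx a)).2.2
  -- both colours in infinite closed sets
  have hcol : ∀ F : Set (range x), IsClosed F → F.Infinite → ∀ b : Bool, ∃ a ∈ F, col a = b := by
    intro F hF hinf b
    let s' := hinf.natEmbedding
    let s : ℕ → I := fun n => idx (s' n).1
    have hs : Function.Injective s := by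
      intro m n h
      have h1 := hidxinj h
      exact s'.injective (Subtype.ext h1)
    obtain ⟨i0, hi0⟩ := bounded s
    have hk : ∃ k : I, i0 ≤ e.symm (s, k, b) := by
      by_contra hcon
      push Not at hcon
      have h1 : Function.Injective (fun k : I => (⟨e.symm (s, k, b), hcon k⟩ : Iio i0)) := by
        intro k l h
        have h2 := e.symm.injective (congrArg Subtype.val h)
        exact (congrArg (fun t : (ℕ → I) × I × Bool => t.2.1) h2)
      have h2 := Cardinal.mk_le_of_injective h1
      rw [mk_I] at h2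
      exact absurd (mk_Iio i0) (not_lt.mpr h2)
    obtain ⟨k, hk⟩ := hk
    have he : e (e.symm (s, k, b)) = (s, k, b) := e.apply_symm_apply _
    generalize hi : e.symm (s, k, b) = i at hk he
    have hspec := (hx i).2.1
    rw [he] at hspec
    have hcl : MapClusterPt (x i) atTop (fun n => x (s n)) :=
      hspec (fun n => (hi0 n).trans_le hk) (fun m n h => hs (hx2 h))
    refine ⟨⟨x i, mem_range_self i⟩, ?_, ?_⟩
    · obtain ⟨C, hC, hCF⟩ := isClosed_induced_iff.mp hF
      rw [← hCF]
      show x i ∈ C
      by_contra hcon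
      have h3 := hcl.frequently (hC.isOpen_compl.mem_nhds hcon)
      obtain ⟨n, hn⟩ := h3.exists
      apply hn
      have h4 : (s' n).1 ∈ (Subtype.val ⁻¹' C : Set (range x)) := hCF.symm ▸ (s' n).2
      have h5 : x (s n) = (s' n).1.1 := hidx _
      show x (s n) ∈ C
      rw [h5]
      exact h4
    · show (e (idx ⟨x i, mem_range_self i⟩)).2.2 = b
      rw [hidx2, he]
  let key : range x → Lex (I ⊕ Iᵒᵈ) := fun a =>
    if col a = true then toLex (Sum.inl (idx a)) else toLex (Sum.inr (OrderDual.toDual (idx a)))
  have hkey : Function.Injective key := by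
    intro a b h
    apply hidxinj
    by_cases ha : col a = true <;> by_cases hb : col b = true
    · have : toLex (Sum.inl (idx a)) = (toLex (Sum.inl (idx b)) : Lex (I ⊕ Iᵒᵈ)) := by
        simpa [key, ha, hb] using h
      exact Sum.inl_injective (toLex.injective this)
    · simp [key, ha, hb] at h
    · simp [key, ha, hb] at h
    · have : toLex (Sum.inr (OrderDual.toDual (idx a))) =
          (toLex (Sum.inr (OrderDual.toDual (idx b))) : Lex (I ⊕ Iᵒᵈ)) := by
        simpa [key, ha, hb] using h
      exact OrderDual.toDual.injective (Sum.inr_injective (toLex.injective this))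
  refine ⟨range x, inferInstance, fun a => a.1.1, inferInstance, ?_, ?_, ?_⟩
  · let lo : LinearOrder (range x) := LinearOrder.lift' key hkey
    refine ⟨lo, fun F hF hne => ?_⟩
    have hmin : ∀ b : Bool, (∃ a ∈ F, col a = b) →
        ∃ a ∈ F, col a = b ∧ ∀ c ∈ F, col c = b → idx a ≤ idx c := by
      intro b hb
      have hwf : WellFounded (fun p q : range x => idx p < idx q) := InvImage.wf idx wellFounded_lt
      obtain ⟨a, ha, hmin⟩ := hwf.has_min {a | a ∈ F ∧ col a = b} hb
      exact ⟨a, ha.1, ha.2, fun c hc hcb => not_lt.mp (hmin c ⟨hc, hcb⟩)⟩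
    by_cases hfin : F.Finite
    · constructor
      · obtain ⟨a, ha, hmin⟩ := @Set.exists_min_image _ _ lo F id hfin hne
        exact ⟨a, ha, fun b hb => hmin b hb⟩
      · obtain ⟨a, ha, hmax⟩ := @Set.exists_max_image _ _ lo F id hfin hne
        exact ⟨a, ha, fun b hb => hmax b hb⟩
    · constructor
      · obtain ⟨a, ha, hac, hmin⟩ := hmin true (hcol F hF hfin true)
        refine ⟨a, ha, fun c hc => ?_⟩
        show key a ≤ key c
        by_cases hcc : col c = true
        · have : key a = toLex (Sum.inl (idx a)) := if_pos hac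
          rw [this, show key c = toLex (Sum.inl (idx c)) from if_pos hcc]
          exact Sum.Lex.inl_le_inl_iff.mpr (hmin c hc hcc)
        · rw [show key a = toLex (Sum.inl (idx a)) from if_pos hac,
            show key c = toLex (Sum.inr (OrderDual.toDual (idx c))) from if_neg hcc]
          exact Sum.Lex.inl_le_inr _ _
      · obtain ⟨a, ha, hac, hmin⟩ := hmin false (hcol F hF hfin false)
        have hac' : ¬ col a = true := by rw [hac]; simp
        refine ⟨a, ha, fun c hc => ?_⟩
        show key c ≤ key a
        by_cases hcc : col c = true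
        · rw [show key c = toLex (Sum.inl (idx c)) from if_pos hcc,
            show key a = toLex (Sum.inr (OrderDual.toDual (idx a))) from if_neg hac']
          exact Sum.Lex.inl_le_inr _ _
        · rw [show key c = toLex (Sum.inr (OrderDual.toDual (idx c))) from if_neg hcc,
            show key a = toLex (Sum.inr (OrderDual.toDual (idx a))) from if_neg hac']
          refine Sum.Lex.inr_le_inr_iff.mpr ?_
          exact OrderDual.toDual_le_toDual.mpr (hmin c hc (by simpa using hcc))
  · exact continuous_fst.comp continuous_subtype_val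
  · intro y
    obtain ⟨k, hk⟩ := hg y
    have he : e (e.symm ((fun _ => k), k, true)) = ((fun _ => k), k, true) := e.apply_symm_apply _
    generalize e.symm ((fun _ => k), k, true) = i at he
    have hspec := (hx i).2.2
    rw [he] at hspec
    refine ⟨⟨x i, mem_range_self i⟩, ?_⟩
    show (x i).1 = y
    rw [← hk]
    apply hspec
    rintro ⟨_, hinj⟩
    have := @hinj 0 1 rfl
    omega

end Pool.Agent.X198.ST
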