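import Mathlib

namespace Pool.Agent.X198.ST

open Set Topology Filter Cardinal

/-- codes of the initial segments of `f` -/
def code (f : ℕ → Bool) (n : ℕ) : ℕ := Encodable.encode ((List.range n).map f)

theorem code_inj {f g : ℕ → Bool} {n m : ℕ} (h : code f n = code g m) :
    n = m ∧ ∀ k < n, f k = g k := by
  unfold code at h
  have h1 := Encodable.encode_injective h
  have h2 : n = m := by
    have := congrArg List.length h1
    simpa using this
  subst h2
  refine ⟨rfl, fun k hk => ?_⟩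
  have h3 := List.map_inj_left.mp h1
  exact h3 k (List.mem_range.mpr hk)

/-- a free ultrafilter on the branch of `f` -/
noncomputable def fu (f : ℕ → Bool) : Ultrafilter ℕ := (hyperfilter ℕ).map (code f)

theorem fu_free (f : ℕ → Bool) : (fu f : Filter ℕ) ≤ atTop := by
  have h1 : Function.Injective (code f) := fun n m h => (code_inj h).1
  have h2 : Tendsto (code f) (hyperfilter ℕ : Filter ℕ) atTop := by
    have := h1.tendsto_cofinite
    rw [Nat.cofinite_eq_atTop] at this
    exact this.mono_left (by rw [← Nat.cofinite_eq_atTop]; exact hyperfilter_le_cofinite)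
  exact h2

theorem fu_mem (f : ℕ → Bool) (k : ℕ) : {m | ∃ n, k < n ∧ m = code f n} ∈ fu f := by
  show _ ∈ (hyperfilter ℕ).map (code f)
  rw [Ultrafilter.mem_map]
  have : {n | k < n} ∈ (hyperfilter ℕ : Filter ℕ) := by
    have h1 : (hyperfilter ℕ : Filter ℕ) ≤ atTop := by
      rw [← Nat.cofinite_eq_atTop]; exact hyperfilter_le_cofinite
    exact h1 (Ioi_mem_atTop k)
  exact Filter.mem_of_superset this (fun n hn => ⟨n, hn, rfl⟩)

theorem fu_inj : Function.Injective fu := by
  intro f g h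
  by_contra hne
  obtain ⟨k, hk⟩ := Function.ne_iff.mp hne
  have h1 := fu_mem f k
  have h2 := fu_mem g k
  rw [← h] at h2
  have h3 := Filter.nonempty_of_mem (Filter.inter_mem h1 h2)
  obtain ⟨m, ⟨n, hn, e⟩, ⟨n', hn', e'⟩⟩ := h3
  have h4 := code_inj (e.symm.trans e')
  exact hk (h4.2 k hn)

theorem exists_notMem_of_inj {W : Type*} {U : Set W} (hU : Cardinal.mk U < Cardinal.continuum)
    (F : (ℕ → Bool) → W) (hF : Function.Injective F) : ∃ f, F f ∉ U := by
  by_contra hcon
  push Not at hcon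
  have h1 : Function.Injective (fun f => (⟨F f, hcon f⟩ : U)) := by
    intro a b h
    exact hF (congrArg Subtype.val h)
  have h2 := Cardinal.lift_mk_le_lift_mk_of_injective h1
  have h3 : Cardinal.mk (ℕ → Bool) = Cardinal.continuum := by simp
  rw [h3] at h2
  simp only [Cardinal.lift_continuum] at h2
  have h4 : Cardinal.continuum ≤ Cardinal.mk U := by
    simpa using h2
  exact absurd hU (not_lt.mpr h4)

/-- separated subsequence of an injective sequence of ultrafilters -/
theorem exists_sep (p : ℕ → Ultrafilter ℕ) (hp : Function.Injective p) :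
    ∃ ψ : ℕ → ℕ, Function.Injective ψ ∧ ∀ B : Set ℕ, ∃ E : Set ℕ,
      (∀ n ∈ B, E ∈ p (ψ n)) ∧ (∀ n ∉ B, E ∉ p (ψ n)) := by
  have : Infinite (range p) := Set.infinite_coe_iff.mpr (Set.infinite_range_of_injective hp)
  obtain ⟨U, hUi, hUo, hUd⟩ := exists_seq_infinite_isOpen_pairwise_disjoint (range p)
  have h1 : ∀ n, ∃ k : ℕ, (⟨p k, mem_range_self k⟩ : range p) ∈ U n := by
    intro n
    obtain ⟨⟨z, k, rfl⟩, hz⟩ := (hUi n).nonempty
    exact ⟨k, hz⟩
  choose ψ hψ using h1
  have h2 : ∀ n, ∃ A : Set ℕ, A ∈ p (ψ n) ∧ ∀ k, A ∈ p k → (⟨p k, mem_range_self k⟩ : range p) ∈ U n := by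
    intro n
    obtain ⟨V, hV, hVU⟩ := isOpen_induced_iff.mp (hUo n)
    have h3 : p (ψ n) ∈ V := by
      have := hψ n
      rw [← hVU] at this
      exact this
    obtain ⟨W, hW, hpW, hWV⟩ := ultrafilterBasis_is_basis.exists_subset_of_mem_open h3 hV
    obtain ⟨A, rfl⟩ := hW
    refine ⟨A, hpW, fun k hk => ?_⟩
    rw [← hVU]
    exact hWV hk
  choose A hA hAU using h2
  have h4 : ∀ m n, m ≠ n → A m ∉ p (ψ n) := by
    intro m n hmn hmem
    have h5 := hAU m (ψ n) hmem
    exact (Set.disjoint_left.mp (hUd hmn)) h5 (hψ n)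
  refine ⟨ψ, ?_, ?_⟩
  · intro m n hmn
    by_contra hne
    have := h4 m n hne
    rw [← hmn] at this
    exact this (hA m)
  · intro B
    let A' : ℕ → Set ℕ := fun n => A n \ ⋃ m ∈ Iio n, A m
    have hA' : ∀ n, A' n ∈ p (ψ n) := by
      intro n
      have h5 : (⋃ m ∈ Iio n, A m) ∉ p (ψ n) := by
        intro h6
        rw [Ultrafilter.finite_biUnion_mem_iff (Set.finite_Iio n)] at h6
        obtain ⟨m, hm, h7⟩ := h6
        have : m ≠ n := ne_of_lt hm
        exact h4 m n this h7
      exact (Ultrafilter.sdiff_mem_iff _).mpr ⟨hA n, h5⟩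
    have hdis : ∀ m n x, x ∈ A' m → x ∈ A' n → m = n := by
      intro m n x hm hn
      by_contra hne
      rcases lt_or_gt_of_ne hne with h | h
      · exact hn.2 (Set.mem_biUnion (Set.mem_Iio.mpr h) hm.1)
      · exact hm.2 (Set.mem_biUnion (Set.mem_Iio.mpr h) hn.1)
    refine ⟨⋃ n ∈ B, A' n, ?_, ?_⟩
    · intro n hn
      exact Filter.mem_of_superset (hA' n) (Set.subset_biUnion_of_mem hn)
    · intro n hn hmem
      obtain ⟨x, hx1, hx2⟩ := Filter.nonempty_of_mem (Filter.inter_mem hmem (hA' n))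
      obtain ⟨m, hm, hxm⟩ := Set.mem_iUnion₂.mp hx1
      have := hdis m n x hxm hx2
      exact hn (this ▸ hm)

end Pool.Agent.X198.ST
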